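import Pool.Agent.H54.GradF

/-!
# Grad's conjecture on the axisymmetry of MHD equilibria is false (MP_919d81_mp)

The definitions are in `Pool/Agent/H54/GradDefs.lean`.

The counterexample is explicit. Put `q = x²/4 + 4y²`, `S = √(1 - z² - (q - 1)²)` and
`X = ((zx - 4Sy)/q, (zy + Sx/4)/q, 2(1 - q))`, `p = -(x² + y² + 4z²)/2 - |X|²/2` on the open solid torus
`z² + (q - 1)² < 1`. Then `(X · ∇) X = -(x, y, 4z)`, so `curl X × X = ∇p`, and `div X = 0`. All field
lines are closed: they are orbits of a harmonic oscillator with the frequencies `1, 1, 2`. The space of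
the field lines is the unit disc (coordinate `H`) and `p = -863/512 - 2 |H + 15i/32|²`; the domain
`M` is `|H + 15i/32| ≤ 1/2`. The field is the image under the linear map `diag(2, 1/2, 1)` of an
axisymmetric one whose total pressure is quadratic; it is not axisymmetric itself.
-/

set_option autoImplicit false

namespace Pool.Agent.Results.MP_919d81_mp.GradFalse

open Pool.Agent.H54.Grad

/-- **Grad's conjecture is false.** There are a solid toroidal domain `M ⊂ ℝ³` and an MHD equilibrium
`(X, p)` on `M`, such that `p` has toroidally nested level sets, which is not axisymmetric. -/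
theorem result : ∃ (M : Set E3) (X : E3 → E3) (p : E3 → ℝ),
    IsSolidToroidalDomain M ∧ IsMHDEquilibrium M X p ∧ (∃ γ : Set E3, ToroidallyNested M p γ) ∧
      ¬ IsAxisymmetric M X p :=
  ⟨T (1 / 2), X, p, T_solid (by norm_num) le_rfl, equilibrium, ⟨L 0, nested⟩, not_axisymmetric⟩

end Pool.Agent.Results.MP_919d81_mp.GradFalse
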